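import Mathlib
set_option autoImplicit false

open Module
open scoped Pointwise

namespace Pool.Agent.Results.MP_45c2e2_co.TwoThirds

/-- The Gaussian integers. -/
abbrev G := QuadraticAlgebra ℤ (-1) 0

/-- The ring of elements `a + b * sqrt 3` with `a, b` Gaussian integers. -/
abbrev O := QuadraticAlgebra G 3 0

/-- The Gaussian integer `1 + i`. -/
def nu : O := ⟨⟨1, 1⟩, 0⟩

/-- The element `sqrt 3`. -/
def pii : O := ⟨0, 1⟩

theorem F1 : ∀ a b c d : ZMod 3, a ^ 2 - b ^ 2 = c ^ 2 - d ^ 2 - 2 * c * d →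
    2 * a * b = c ^ 2 - d ^ 2 + 2 * c * d → a = 0 ∧ b = 0 ∧ c = 0 ∧ d = 0 := by decide

theorem F2 : ∀ e c d : ZMod 3, e = c ^ 2 - d ^ 2 - 2 * c * d →
    0 = c ^ 2 - d ^ 2 + 2 * c * d → e = 0 ∧ c = 0 ∧ d = 0 := by decide

theorem dvd3 (a : ℤ) (h : (a : ZMod 3) = 0) : ∃ b, a = 3 * b := by
  obtain ⟨b, hb⟩ := (ZMod.intCast_zmod_eq_zero_iff_dvd a 3).1 h
  exact ⟨b, by simpa using hb⟩

/-- `x^2 ≡ nu y^2` modulo 3 in the Gaussian integers forces divisibility by 3. -/
theorem F1' (x y : G) (z : G) (h : x ^ 2 = ⟨1, 1⟩ * y ^ 2 + 3 * z) :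
    (∃ x', x = 3 * x') ∧ ∃ y', y = 3 * y' := by
  have h1 := congrArg QuadraticAlgebra.re h
  have h2 := congrArg QuadraticAlgebra.im h
  simp only [pow_two, QuadraticAlgebra.re_mul, QuadraticAlgebra.im_mul, QuadraticAlgebra.re_add,
    QuadraticAlgebra.im_add, QuadraticAlgebra.re_ofNat, QuadraticAlgebra.im_ofNat] at h1 h2
  have h1' := congrArg (Int.cast : ℤ → ZMod 3) h1
  have h2' := congrArg (Int.cast : ℤ → ZMod 3) h2
  push_cast at h1' h2'
  have h3 : (3 : ZMod 3) = 0 := by decide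
  obtain ⟨ha, hb, hc, hd⟩ := F1 x.re x.im y.re y.im
    (by linear_combination h1' + (z.re : ZMod 3) * h3)
    (by linear_combination h2' + (z.im : ZMod 3) * h3)
  obtain ⟨a, ha⟩ := dvd3 _ ha
  obtain ⟨b, hb⟩ := dvd3 _ hb
  obtain ⟨c, hc⟩ := dvd3 _ hc
  obtain ⟨d, hd⟩ := dvd3 _ hd
  refine ⟨⟨⟨a, b⟩, ?_⟩, ⟨⟨c, d⟩, ?_⟩⟩
  · ext <;> simp [ha, hb, QuadraticAlgebra.re_mul, QuadraticAlgebra.im_mul, QuadraticAlgebra.re_ofNat, QuadraticAlgebra.im_ofNat]
  · ext <;> simp [hc, hd, QuadraticAlgebra.re_mul, QuadraticAlgebra.im_mul, QuadraticAlgebra.re_ofNat, QuadraticAlgebra.im_ofNat]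

theorem F2' (e : ℤ) (y : G) (z : G) (h : (e : G) = ⟨1, 1⟩ * y ^ 2 + 3 * z) :
    (∃ e', e = 3 * e') ∧ ∃ y', y = 3 * y' := by
  have h1 := congrArg QuadraticAlgebra.re h
  have h2 := congrArg QuadraticAlgebra.im h
  simp only [pow_two, QuadraticAlgebra.re_mul, QuadraticAlgebra.im_mul, QuadraticAlgebra.re_add,
    QuadraticAlgebra.im_add, QuadraticAlgebra.re_ofNat, QuadraticAlgebra.im_ofNat,
    QuadraticAlgebra.re_intCast, QuadraticAlgebra.im_intCast] at h1 h2
  have h1' := congrArg (Int.cast : ℤ → ZMod 3) h1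
  have h2' := congrArg (Int.cast : ℤ → ZMod 3) h2
  push_cast at h1' h2'
  have h3 : (3 : ZMod 3) = 0 := by decide
  obtain ⟨ha, hc, hd⟩ := F2 e y.re y.im
    (by linear_combination h1' + (z.re : ZMod 3) * h3)
    (by linear_combination h2' + (z.im : ZMod 3) * h3)
  obtain ⟨a, ha⟩ := dvd3 _ ha
  obtain ⟨c, hc⟩ := dvd3 _ hc
  obtain ⟨d, hd⟩ := dvd3 _ hd
  refine ⟨⟨a, ha⟩, ⟨⟨c, d⟩, ?_⟩⟩
  ext <;> simp [hc, hd, QuadraticAlgebra.re_mul, QuadraticAlgebra.im_mul, QuadraticAlgebra.re_ofNat, QuadraticAlgebra.im_ofNat]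


theorem pii_mul (x : O) : pii * x = ⟨3 * x.im, x.re⟩ := by
  ext1 <;> simp [pii, QuadraticAlgebra.re_mul, QuadraticAlgebra.im_mul]

theorem pii_sq : pii * pii = 3 := by
  rw [pii_mul]
  ext1 <;> simp [pii, QuadraticAlgebra.re_ofNat, QuadraticAlgebra.im_ofNat]

theorem three_mul_cancel (x y : G) (h : 3 * x = 3 * y) : x = y := by
  have h1 := congrArg QuadraticAlgebra.re h
  have h2 := congrArg QuadraticAlgebra.im h
  simp [QuadraticAlgebra.re_mul, QuadraticAlgebra.im_mul, QuadraticAlgebra.re_ofNat,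
    QuadraticAlgebra.im_ofNat] at h1 h2
  exact QuadraticAlgebra.ext h1 h2

theorem pii_cancel (x y : O) (h : pii * x = pii * y) : x = y := by
  rw [pii_mul, pii_mul] at h
  have h1 := congrArg QuadraticAlgebra.re h
  have h2 := congrArg QuadraticAlgebra.im h
  exact QuadraticAlgebra.ext h2 (three_mul_cancel _ _ h1)

theorem pii_dvd (x : O) (h : ∃ a, x.re = 3 * a) : ∃ y, x = pii * y := by
  obtain ⟨a, ha⟩ := h
  refine ⟨⟨x.im, a⟩, ?_⟩
  rw [pii_mul]
  ext1
  · exact ha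
  · rfl

/-- Integers and squares. -/
def T (D : O) : Prop := (∃ e : ℤ, D = e) ∨ ∃ X : O, D = X ^ 2

theorem re_sq (X : O) : (X ^ 2).re = X.re ^ 2 + 3 * X.im ^ 2 := by
  rw [pow_two, QuadraticAlgebra.re_mul]; ring

theorem re_nu_mul (X : O) : (nu * X).re = ⟨1, 1⟩ * X.re := by
  simp [nu, QuadraticAlgebra.re_mul]

theorem re_pii_mul (X : O) : (pii * X).re = 3 * X.im := by
  rw [pii_mul]

theorem T_step (D : O) (hD : T D) (y z : G) (h : D.re = ⟨1, 1⟩ * y ^ 2 + 3 * z) :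
    (∃ D', T D' ∧ D = 3 * D') ∧ ∃ y', y = 3 * y' := by
  rcases hD with ⟨e, rfl⟩ | ⟨X, rfl⟩
  · rw [QuadraticAlgebra.re_intCast] at h
    obtain ⟨⟨e', he⟩, hy⟩ := F2' e y z h
    refine ⟨⟨(e' : O), Or.inl ⟨e', rfl⟩, ?_⟩, hy⟩
    rw [he]
    push_cast
    ring
  · rw [re_sq] at h
    obtain ⟨hx, hy⟩ := F1' X.re y (z - X.im ^ 2) (by linear_combination h)
    obtain ⟨X', hX'⟩ := pii_dvd X hx
    refine ⟨⟨X' ^ 2, Or.inr ⟨X', rfl⟩, ?_⟩, hy⟩
    rw [hX', ← pii_sq]
    ring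

theorem descent_step (D Y Z W : O) (hD : T D)
    (h : D = nu * Y ^ 2 + pii * Z ^ 2 - pii * nu * W ^ 2) :
    ∃ D' Y' Z' W', T D' ∧ Y = pii * Y' ∧ Z = pii * Z' ∧ W = pii * W' ∧
      D' = nu * Y' ^ 2 + pii * Z' ^ 2 - pii * nu * W' ^ 2 := by
  have h0 : D = nu * Y ^ 2 + pii * (Z ^ 2 - nu * W ^ 2) := by rw [h]; ring
  have h1 : D.re = ⟨1, 1⟩ * Y.re ^ 2 + 3 * (⟨1, 1⟩ * Y.im ^ 2 + (Z ^ 2 - nu * W ^ 2).im) := by
    rw [h0, QuadraticAlgebra.re_add, re_nu_mul, re_pii_mul, re_sq]; ring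
  obtain ⟨⟨D1, hD1, hD2⟩, hy⟩ := T_step D hD _ _ h1
  obtain ⟨Y', hY'⟩ := pii_dvd Y hy
  have h2 : pii * (pii * D1) = pii * (pii * (nu * Y' ^ 2) + (Z ^ 2 - nu * W ^ 2)) := by
    have : pii * (pii * D1) = D := by rw [hD2, ← pii_sq]; ring
    rw [this, h0, hY']
    ring
  have h3 := pii_cancel _ _ h2
  have h4 : Z ^ 2 = nu * W ^ 2 + pii * (D1 - nu * Y' ^ 2) := by linear_combination -h3
  have h5 : Z.re ^ 2 = ⟨1, 1⟩ * W.re ^ 2 + 3 * (⟨1, 1⟩ * W.im ^ 2 + (D1 - nu * Y' ^ 2).im - Z.im ^ 2) := by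
    have := congrArg QuadraticAlgebra.re h4
    rw [QuadraticAlgebra.re_add, re_nu_mul, re_pii_mul, re_sq, re_sq] at this
    linear_combination this
  obtain ⟨hz, hw⟩ := F1' _ _ _ h5
  obtain ⟨Z', hZ'⟩ := pii_dvd Z hz
  obtain ⟨W', hW'⟩ := pii_dvd W hw
  refine ⟨D1, Y', Z', W', hD1, hY', hZ', hW', ?_⟩
  apply pii_cancel
  rw [h3, hZ', hW']
  ring

theorem descent (n : ℕ) : ∀ D Y Z W : O, T D →
    D = nu * Y ^ 2 + pii * Z ^ 2 - pii * nu * W ^ 2 → pii ^ n ∣ Y ∧ pii ^ n ∣ Z ∧ pii ^ n ∣ W := by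
  induction n with
  | zero => intro D Y Z W _ _; simp
  | succ n ih =>
    intro D Y Z W hD h
    obtain ⟨D', Y', Z', W', hD', rfl, rfl, rfl, h'⟩ := descent_step D Y Z W hD h
    obtain ⟨h1, h2, h3⟩ := ih D' Y' Z' W' hD' h'
    rw [pow_succ']
    exact ⟨mul_dvd_mul_left _ h1, mul_dvd_mul_left _ h2, mul_dvd_mul_left _ h3⟩

theorem pow_three_dvd (n : ℕ) (Y : O) (h : pii ^ (2 * n) ∣ Y) : ((3 ^ n : ℤ) : O) ∣ Y := by
  have : ((3 ^ n : ℤ) : O) = pii ^ (2 * n) := by
    rw [pow_mul, pow_two, pii_sq]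
    push_cast
    rfl
  rwa [this]

theorem int_zero (a : ℤ) (h : ∀ n : ℕ, (3 ^ n : ℤ) ∣ a) : a = 0 := by
  have h1 := h a.natAbs
  have h2 : |a| < 3 ^ a.natAbs := by
    have := Nat.lt_pow_self (n := a.natAbs) (show 1 < 3 by norm_num)
    rw [Int.abs_eq_natAbs]
    exact_mod_cast this
  exact Int.eq_zero_of_abs_lt_dvd h1 h2

theorem int_smul_comp (m : ℤ) (Y : O) : ((m : O) * Y).re.re = m * Y.re.re ∧
    ((m : O) * Y).re.im = m * Y.re.im ∧ ((m : O) * Y).im.re = m * Y.im.re ∧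
    ((m : O) * Y).im.im = m * Y.im.im := by
  refine ⟨?_, ?_, ?_, ?_⟩ <;>
  simp [QuadraticAlgebra.re_mul, QuadraticAlgebra.im_mul, QuadraticAlgebra.re_intCast,
    QuadraticAlgebra.im_intCast]

theorem zero_of_dvd (Y : O) (h : ∀ n : ℕ, pii ^ n ∣ Y) : Y = 0 := by
  have h1 : ∀ n : ℕ, (3 ^ n : ℤ) ∣ Y.re.re ∧ (3 ^ n : ℤ) ∣ Y.re.im ∧ (3 ^ n : ℤ) ∣ Y.im.re ∧
      (3 ^ n : ℤ) ∣ Y.im.im := by
    intro n
    obtain ⟨c, hc⟩ := pow_three_dvd n Y (h _)
    obtain ⟨h1, h2, h3, h4⟩ := int_smul_comp (3 ^ n) c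
    rw [← hc] at h1 h2 h3 h4
    exact ⟨⟨_, h1⟩, ⟨_, h2⟩, ⟨_, h3⟩, ⟨_, h4⟩⟩
  have e1 := int_zero _ fun n => (h1 n).1
  have e2 := int_zero _ fun n => (h1 n).2.1
  have e3 := int_zero _ fun n => (h1 n).2.2.1
  have e4 := int_zero _ fun n => (h1 n).2.2.2
  ext1
  · exact QuadraticAlgebra.ext e1 e2
  · exact QuadraticAlgebra.ext e3 e4

theorem descent_zero (D Y Z W : O) (hD : T D)
    (h : D = nu * Y ^ 2 + pii * Z ^ 2 - pii * nu * W ^ 2) : Y = 0 ∧ Z = 0 ∧ W = 0 :=
  ⟨zero_of_dvd _ fun n => (descent n D Y Z W hD h).1,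
    zero_of_dvd _ fun n => (descent n D Y Z W hD h).2.1,
    zero_of_dvd _ fun n => (descent n D Y Z W hD h).2.2⟩

theorem int_sq_three (x y : ℤ) (h : x ^ 2 = 3 * y ^ 2) : x = 0 ∧ y = 0 := by
  by_cases hy : y = 0
  · subst hy
    simpa using h
  · exfalso
    have h1 : Irrational (Real.sqrt (3 : ℕ)) := Nat.Prime.irrational_sqrt (by norm_num)
    apply h1
    refine ⟨(|x| : ℚ) / |y|, ?_⟩
    have hy' : (0 : ℝ) < |(y : ℝ)| := abs_pos.2 (by exact_mod_cast hy)
    have h2 : ((x : ℝ)) ^ 2 = 3 * (y : ℝ) ^ 2 := by exact_mod_cast h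
    symm
    rw [Real.sqrt_eq_iff_mul_self_eq (by norm_num) (by positivity)]
    push_cast
    rw [div_mul_div_comm, ← abs_mul, ← abs_mul, abs_mul_self, abs_mul_self]
    have hy2 : (y : ℝ) * y ≠ 0 := mul_self_ne_zero.2 (by exact_mod_cast hy)
    rw [eq_div_iff hy2]
    linear_combination -h2

/-- Every nonzero element of `O` divides a nonzero integer. -/
theorem exists_norm (c : O) (hc : c ≠ 0) : ∃ (c' : O) (M : ℤ), M ≠ 0 ∧ c * c' = M := by
  set a := c.re with ha
  set b := c.im with hb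
  set n1 : G := a ^ 2 - 3 * b ^ 2 with hn1
  set n2 : G := ⟨n1.re, -n1.im⟩ with hn2
  refine ⟨⟨a, -b⟩ * ⟨n2, 0⟩, n1.re ^ 2 + n1.im ^ 2, ?_, ?_⟩
  · intro hM
    have h1 : n1.re = 0 := by nlinarith [sq_nonneg n1.re, sq_nonneg n1.im]
    have h2 : n1.im = 0 := by nlinarith [sq_nonneg n1.re, sq_nonneg n1.im]
    simp only [hn1, pow_two, QuadraticAlgebra.re_sub, QuadraticAlgebra.im_sub,
      QuadraticAlgebra.re_mul, QuadraticAlgebra.im_mul, QuadraticAlgebra.re_ofNat,
      QuadraticAlgebra.im_ofNat] at h1 h2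
    ring_nf at h1 h2
    have h3 : (a.re ^ 2 + a.im ^ 2) ^ 2 = (3 * (b.re ^ 2 + b.im ^ 2)) ^ 2 := by
      linear_combination (a.re ^ 2 - a.im ^ 2 + 3 * (b.re ^ 2 - b.im ^ 2)) * h1 +
        (2 * a.re * a.im + 6 * b.re * b.im) * h2
    have h4 : a.re ^ 2 + a.im ^ 2 = 3 * (b.re ^ 2 + b.im ^ 2) := by
      have := abs_eq_abs.2 (sq_eq_sq_iff_eq_or_eq_neg.1 h3)
      rwa [abs_of_nonneg (by positivity), abs_of_nonneg (by positivity)] at this
    obtain ⟨e1, e2⟩ := int_sq_three a.re b.re (by linarith)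
    obtain ⟨e3, e4⟩ := int_sq_three a.im b.im (by linarith)
    apply hc
    ext1
    · exact QuadraticAlgebra.ext e1 e3
    · exact QuadraticAlgebra.ext e2 e4
  · have h1 : c * ⟨a, -b⟩ = ⟨n1, 0⟩ := by
      ext1
      · simp only [QuadraticAlgebra.re_mul, ← ha, ← hb, hn1]; ring
      · simp only [QuadraticAlgebra.im_mul, ← ha, ← hb]; ring
    have h5 : n1 * n2 = ((n1.re ^ 2 + n1.im ^ 2 : ℤ) : G) := by
      ext1
      · rw [QuadraticAlgebra.re_intCast]
        simp only [hn2, QuadraticAlgebra.re_mul, Int.cast_id]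
        ring
      · rw [QuadraticAlgebra.im_intCast]
        simp only [hn2, QuadraticAlgebra.im_mul]
        ring
    rw [← mul_assoc, h1]
    ext1
    · rw [QuadraticAlgebra.re_mul, QuadraticAlgebra.re_intCast, ← h5]
      ring
    · rw [QuadraticAlgebra.im_mul, QuadraticAlgebra.im_intCast]
      ring

theorem int_cancel (M : ℤ) (hM : M ≠ 0) (y : O) (h : (M : O) * y = 0) : y = 0 := by
  obtain ⟨h1, h2, h3, h4⟩ := int_smul_comp M y
  rw [h] at h1 h2 h3 h4
  have e1 : y.re.re = 0 := by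
    rcases mul_eq_zero.1 h1.symm with h | h
    · exact absurd h hM
    · exact h
  have e2 : y.re.im = 0 := by
    rcases mul_eq_zero.1 h2.symm with h | h
    · exact absurd h hM
    · exact h
  have e3 : y.im.re = 0 := by
    rcases mul_eq_zero.1 h3.symm with h | h
    · exact absurd h hM
    · exact h
  have e4 : y.im.im = 0 := by
    rcases mul_eq_zero.1 h4.symm with h | h
    · exact absurd h hM
    · exact h
  ext1
  · exact QuadraticAlgebra.ext e1 e2
  · exact QuadraticAlgebra.ext e3 e4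

theorem O_cancel (c : O) (hc : c ≠ 0) (y : O) (h : c * y = 0) : y = 0 := by
  obtain ⟨c', M, hM, hcM⟩ := exists_norm c hc
  apply int_cancel M hM
  rw [← hcM]
  linear_combination c' * h

/-- The norm form of a quaternion algebra over `Q(i, sqrt 3)`. -/
def Q (x : Fin 4 → O) : O := x 0 ^ 2 - nu * x 1 ^ 2 - pii * x 2 ^ 2 + pii * nu * x 3 ^ 2

/-- Half of its polar form. -/
def B (x y : Fin 4 → O) : O := x 0 * y 0 - nu * x 1 * y 1 - pii * x 2 * y 2 + pii * nu * x 3 * y 3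

theorem Q_add (x y : Fin 4 → O) : Q (x + y) = Q x + 2 * B x y + Q y := by
  simp only [Q, B, Pi.add_apply]; ring

theorem Q_comb (x y : Fin 4 → O) (s t : O) :
    Q (fun i => s * x i + t * y i) = s ^ 2 * Q x + 2 * s * t * B x y + t ^ 2 * Q y := by
  simp only [Q, B]; ring

theorem aniso (x : Fin 4 → O) (h : Q x = 0) : x = 0 := by
  have h0 : x 0 ^ 2 = nu * x 1 ^ 2 + pii * x 2 ^ 2 - pii * nu * x 3 ^ 2 := by
    rw [Q] at h
    linear_combination h
  obtain ⟨h1, h2, h3⟩ := descent_zero _ _ _ _ (Or.inr ⟨x 0, rfl⟩) h0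
  rw [h1, h2, h3] at h0
  have h4 : x 0 * x 0 = 0 := by linear_combination h0
  have h5 : x 0 = 0 := by
    by_contra hne
    exact hne (O_cancel _ hne _ h4)
  funext i
  fin_cases i
  · exact h5
  · exact h1
  · exact h2
  · exact h3

/-- If the restriction of `Q` to the span of `u` and `v` has rational rank at most one, then
`u` and `v` are proportional. -/
theorem key (u v : Fin 4 → O) (E F H : ℤ) (hE : E ≠ 0)
    (h1 : (E : O) * (2 * B u v) = H * Q u) (h2 : (E : O) * Q v = F * Q u) (i : Fin 4) :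
    ((2 * E : ℤ) : O) * v i = H * u i := by
  by_cases hu : Q u = 0
  · have hu0 := aniso u hu
    rw [hu, mul_zero] at h2
    have hv0 := aniso v (int_cancel E hE _ h2)
    rw [hu0, hv0]
    simp
  · obtain ⟨c', M, hM, hcM⟩ := exists_norm (Q u) hu
    set P1 : O := u 0 * v 1 - u 1 * v 0 + pii * (u 2 * v 3 - u 3 * v 2) with hP1
    set P2 : O := u 0 * v 2 - u 2 * v 0 - nu * (u 1 * v 3 - u 3 * v 1) with hP2
    set P3 : O := u 0 * v 3 - u 3 * v 0 - (u 1 * v 2 - u 2 * v 1) with hP3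
    have hid : Q u * Q v = B u v ^ 2 - nu * P1 ^ 2 - pii * P2 ^ 2 + pii * nu * P3 ^ 2 := by
      simp only [Q, B, hP1, hP2, hP3]; ring
    have h3 : (((H ^ 2 - 4 * E * F) * M ^ 2 : ℤ) : O) = nu * (2 * E * P1 * c') ^ 2 +
        pii * (2 * E * P2 * c') ^ 2 - pii * nu * (2 * E * P3 * c') ^ 2 := by
      push_cast
      rw [← hcM]
      linear_combination (-4 * (E : O) ^ 2 * c' ^ 2) * hid + (4 * (E : O) * Q u * c' ^ 2) * h2
        - (H * Q u + 2 * E * B u v) * c' ^ 2 * h1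
    obtain ⟨e1, e2, e3⟩ := descent_zero _ _ _ _ (Or.inl ⟨_, rfl⟩) h3
    have hE2 : (2 * E : ℤ) * M ≠ 0 := mul_ne_zero (mul_ne_zero two_ne_zero hE) hM
    have hz : ∀ P : O, 2 * E * P * c' = 0 → P = 0 := by
      intro P hP
      apply int_cancel _ hE2
      push_cast
      rw [← hcM]
      linear_combination (Q u) * hP
    have hp1 := hz _ e1
    have hp2 := hz _ e2
    have hp3 := hz _ e3
    have h4 : Q u * v i = B u v * u i := by
      fin_cases i
      · simp only [Fin.zero_eta, Fin.isValue]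
        simp only [Q, B]
        linear_combination (nu * u 1) * hp1 + (pii * u 2) * hp2 - (pii * nu * u 3) * hp3
      · simp only [Fin.mk_one, Fin.isValue]
        simp only [Q, B]
        linear_combination (u 0) * hp1 - (pii * u 2) * hp3 + (pii * u 3) * hp2
      · simp only [Fin.reduceFinMk, Fin.isValue]
        simp only [Q, B]
        linear_combination (u 0) * hp2 + (nu * u 1) * hp3 - (nu * u 3) * hp1
      · simp only [Fin.reduceFinMk, Fin.isValue]
        simp only [Q, B]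
        linear_combination (u 0) * hp3 + (u 1) * hp2 - (u 2) * hp1
    have h5 : Q u * (((2 * E : ℤ) : O) * v i - H * u i) = 0 := by
      push_cast
      linear_combination (2 * (E : O)) * h4 + (u i) * h1
    exact sub_eq_zero.1 (O_cancel _ hu _ h5)

/-- Index set of the `16 k` integer coordinates. -/
abbrev I (k : ℕ) := Fin k × Fin 4 × Fin 4

/-- The `j`-th block of an integer vector, as a vector with four entries in `O`. -/
def blk {k : ℕ} (x : I k → ℤ) (j : Fin k) : Fin 4 → O :=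
  fun l => ⟨⟨x (j, l, 0), x (j, l, 1)⟩, ⟨x (j, l, 2), x (j, l, 3)⟩⟩

/-- The four integer coordinates of an element of `O`. -/
def comp (y : O) : Fin 4 → ℤ := ![y.re.re, y.re.im, y.im.re, y.im.im]

/-- The `4 k` integral quadratic forms. -/
def q {k : ℕ} (x : I k → ℤ) : Fin k × Fin 4 → ℤ := fun a => comp (Q (blk x a.1)) a.2

/-- The graph map. -/
def pt {k : ℕ} (x : I k → ℤ) : I k ⊕ (Fin k × Fin 4) → ℤ := Sum.elim x (q x)

theorem blk_add {k : ℕ} (x y : I k → ℤ) (j : Fin k) : blk (x + y) j = blk x j + blk y j := rfl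

theorem blk_sub {k : ℕ} (x y : I k → ℤ) (j : Fin k) : blk (x - y) j = blk x j - blk y j := rfl

theorem blk_smul {k : ℕ} (h : ℤ) (x : I k → ℤ) (j : Fin k) (l : Fin 4) :
    blk (h • x) j l = (h : O) * blk x j l := by
  obtain ⟨h1, h2, h3, h4⟩ := int_smul_comp h (blk x j l)
  ext1
  · exact QuadraticAlgebra.ext h1.symm h2.symm
  · exact QuadraticAlgebra.ext h3.symm h4.symm

theorem blk_inj {k : ℕ} (x y : I k → ℤ) (h : ∀ j l, blk x j l = blk y j l) : x = y := by
  funext a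
  obtain ⟨j, l, m⟩ := a
  have h0 := h j l
  have h1 := congrArg (fun z : O => z.re.re) h0
  have h2 := congrArg (fun z : O => z.re.im) h0
  have h3 := congrArg (fun z : O => z.im.re) h0
  have h4 := congrArg (fun z : O => z.im.im) h0
  simp only [blk] at h1 h2 h3 h4
  fin_cases m
  · exact h1
  · exact h2
  · exact h3
  · exact h4

theorem comp_inj (y z : O) (h : ∀ m, comp y m = comp z m) : y = z := by
  have h1 := h 0
  have h2 := h 1
  have h3 := h 2
  have h4 := h 3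
  simp [comp] at h1 h2 h3 h4
  ext1
  · exact QuadraticAlgebra.ext h1 h2
  · exact QuadraticAlgebra.ext h3 h4

theorem comp_add (y z : O) (m : Fin 4) : comp (y + z) m = comp y m + comp z m := by
  fin_cases m <;> simp [comp]

theorem comp_sub (y z : O) (m : Fin 4) : comp (y - z) m = comp y m - comp z m := by
  fin_cases m <;> simp [comp]

theorem comp_smul (h : ℤ) (y : O) (m : Fin 4) : comp ((h : O) * y) m = h * comp y m := by
  obtain ⟨h1, h2, h3, h4⟩ := int_smul_comp h y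
  fin_cases m
  · exact h1
  · exact h2
  · exact h3
  · exact h4

open Matrix in
/-- No three distinct points of a sphere centred at the origin are collinear. -/
theorem noncol {τ : Type*} [Fintype τ] (n : ℤ) (x y z : τ → ℤ) (hx : x ⬝ᵥ x = n) (hy : y ⬝ᵥ y = n)
    (hz : z ⬝ᵥ z = n) (hxy : y ≠ x) (hxz : z ≠ x) (hyz : y ≠ z) (h s : ℤ)
    (hs : h • (y - x) = s • (z - x)) : h = 0 ∧ s = 0 := by
  set a := y - x with ha
  set b := z - x with hb
  have hya : y = x + a := by rw [ha]; abel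
  have hzb : z = x + b := by rw [hb]; abel
  have h1 : 2 * (x ⬝ᵥ a) + a ⬝ᵥ a = 0 := by
    rw [hya] at hy
    simp only [add_dotProduct, dotProduct_add] at hy
    have := dotProduct_comm a x
    linarith
  have h2 : 2 * (x ⬝ᵥ b) + b ⬝ᵥ b = 0 := by
    rw [hzb] at hz
    simp only [add_dotProduct, dotProduct_add] at hz
    have := dotProduct_comm b x
    linarith
  have h3 : h * (x ⬝ᵥ a) = s * (x ⬝ᵥ b) := by
    have := congrArg (fun w => x ⬝ᵥ w) hs
    simpa only [dotProduct_smul, smul_eq_mul] using this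
  have h4 : h * h * (a ⬝ᵥ a) = s * s * (b ⬝ᵥ b) := by
    have := congrArg (fun w => w ⬝ᵥ w) hs
    simp only [dotProduct_smul, smul_dotProduct, smul_eq_mul] at this
    linarith
  have ha0 : a ≠ 0 := sub_ne_zero.2 hxy
  have hb0 : b ≠ 0 := sub_ne_zero.2 hxz
  have hbb : b ⬝ᵥ b ≠ 0 := fun h => hb0 (dotProduct_self_eq_zero.1 h)
  have h5 : s * (h - s) * (b ⬝ᵥ b) = 0 := by
    linear_combination h4 - h * (h * h1 - 2 * h3 - s * h2)
  have h6 : s * (h - s) = 0 := by
    rcases mul_eq_zero.1 h5 with h6 | h6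
    · exact h6
    · exact absurd h6 hbb
  rcases mul_eq_zero.1 h6 with h7 | h7
  · rw [h7, zero_smul] at hs
    rcases smul_eq_zero.1 hs with h8 | h8
    · exact ⟨h8, h7⟩
    · exact absurd h8 ha0
  · have h8 : h = s := by linarith
    subst h8
    by_cases h9 : h = 0
    · exact ⟨h9, h9⟩
    · exfalso
      have h10 : a = b := smul_right_injective _ h9 hs
      apply hyz
      rw [hya, hzb, h10]

/-- The relation produced by one further coplanar point. -/
theorem rel_eq {k : ℕ} (x0 u v w : I k → ℤ) (s t h : ℤ) (hw : h • w = s • u + t • v)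
    (hq : h • (q (x0 + w) - q x0) = s • (q (x0 + u) - q x0) + t • (q (x0 + v) - q x0)) (j : Fin k) :
    ((s * (s - h) : ℤ) : O) * Q (blk u j) + ((s * t : ℤ) : O) * (2 * B (blk u j) (blk v j)) +
      ((t * (t - h) : ℤ) : O) * Q (blk v j) = 0 := by
  have h1 : (h : O) * (Q (blk (x0 + w) j) - Q (blk x0 j)) =
      s * (Q (blk (x0 + u) j) - Q (blk x0 j)) + t * (Q (blk (x0 + v) j) - Q (blk x0 j)) := by
    apply comp_inj
    intro m
    have := congrFun hq (j, m)
    simp only [Pi.smul_apply, Pi.sub_apply, Pi.add_apply, smul_eq_mul, q] at this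
    rw [comp_add, comp_smul, comp_smul, comp_smul, comp_sub, comp_sub, comp_sub]
    exact this
  rw [blk_add, blk_add, blk_add, Q_add, Q_add, Q_add] at h1
  have h2 : ∀ l, (h : O) * blk w j l = s * blk u j l + t * blk v j l := by
    intro l
    rw [← blk_smul, ← blk_smul, ← blk_smul, hw]
    rfl
  have h3 : (h : O) * B (blk x0 j) (blk w j) =
      s * B (blk x0 j) (blk u j) + t * B (blk x0 j) (blk v j) := by
    simp only [B]
    linear_combination (blk x0 j 0) * h2 0 - (nu * blk x0 j 1) * h2 1 - (pii * blk x0 j 2) * h2 2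
      + (pii * nu * blk x0 j 3) * h2 3
  have h4 : (h : O) ^ 2 * Q (blk w j) = s ^ 2 * Q (blk u j) + 2 * s * t * B (blk u j) (blk v j)
      + t ^ 2 * Q (blk v j) := by
    rw [← Q_comb]
    have : (fun i => (s : O) * blk u j i + t * blk v j i) = fun i => (h : O) * blk w j i := by
      funext i
      rw [h2]
    rw [this]
    simp only [Q]
    ring
  push_cast
  linear_combination (h : O) * h1 - h4 - 2 * (h : O) * h3

open Matrix in
/-- The core statement: five distinct points of the graph above a sphere are never coplanar. -/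
theorem core {k : ℕ} (n : ℤ) (x : Fin 5 → I k → ℤ) (hinj : Function.Injective x)
    (hn : ∀ i, x i ⬝ᵥ x i = n)
    (h3 : ∃ c : Fin 3 → ℤ, c ≠ 0 ∧ c 0 • (pt (x 1) - pt (x 0)) + c 1 • (pt (x 2) - pt (x 0))
      + c 2 • (pt (x 3) - pt (x 0)) = 0)
    (h4 : ∃ c : Fin 3 → ℤ, c ≠ 0 ∧ c 0 • (pt (x 1) - pt (x 0)) + c 1 • (pt (x 2) - pt (x 0))
      + c 2 • (pt (x 4) - pt (x 0)) = 0) : False := by
  have hne : ∀ i j : Fin 5, i ≠ j → x i ≠ x j := fun i j hij h => hij (hinj h)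
  -- normal form of the two relations
  have aux : ∀ y : I k → ℤ, (∃ c : Fin 3 → ℤ, c ≠ 0 ∧ c 0 • (pt (x 1) - pt (x 0)) +
      c 1 • (pt (x 2) - pt (x 0)) + c 2 • (pt y - pt (x 0)) = 0) →
      ∃ s t h : ℤ, h ≠ 0 ∧ h • (y - x 0) = s • (x 1 - x 0) + t • (x 2 - x 0) ∧
        h • (q y - q (x 0)) = s • (q (x 1) - q (x 0)) + t • (q (x 2) - q (x 0)) := by
    rintro y ⟨c, hc, hrel⟩
    have r1 : c 0 • (x 1 - x 0) + c 1 • (x 2 - x 0) + c 2 • (y - x 0) = 0 := by
      funext a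
      have := congrFun hrel (Sum.inl a)
      simpa [pt] using this
    have r2 : c 0 • (q (x 1) - q (x 0)) + c 1 • (q (x 2) - q (x 0)) + c 2 • (q y - q (x 0)) = 0 := by
      funext a
      have := congrFun hrel (Sum.inr a)
      simpa [pt] using this
    refine ⟨-c 0, -c 1, c 2, ?_, ?_, ?_⟩
    · intro h2
      rw [h2, zero_smul, add_zero] at r1
      have := noncol n (x 0) (x 1) (x 2) (hn 0) (hn 1) (hn 2) (hne 1 0 (by decide))
        (hne 2 0 (by decide)) (hne 1 2 (by decide)) (c 0) (-c 1)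
        (by rw [neg_smul]; exact eq_neg_of_add_eq_zero_left r1)
      apply hc
      funext i
      fin_cases i
      · exact this.1
      · exact neg_eq_zero.1 this.2
      · exact h2
    · rw [neg_smul, neg_smul, ← neg_add]
      exact eq_neg_of_add_eq_zero_right r1
    · rw [neg_smul, neg_smul, ← neg_add]
      exact eq_neg_of_add_eq_zero_right r2
  obtain ⟨s, t, h, hh, e1, e2⟩ := aux _ h3
  obtain ⟨s', t', h', hh', e1', e2'⟩ := aux _ h4
  set u := x 1 - x 0 with hu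
  set v := x 2 - x 0 with hv
  set w := x 3 - x 0 with hw
  set w' := x 4 - x 0 with hw'
  have x1e : x 1 = x 0 + u := by rw [hu]; abel
  have x2e : x 2 = x 0 + v := by rw [hv]; abel
  have x3e : x 3 = x 0 + w := by rw [hw]; abel
  have x4e : x 4 = x 0 + w' := by rw [hw']; abel
  -- nonvanishing facts
  have ht : t ≠ 0 := by
    intro h0
    rw [h0, zero_smul, add_zero] at e1
    exact hh (noncol n (x 0) (x 3) (x 1) (hn 0) (hn 3) (hn 1) (hne 3 0 (by decide))
      (hne 1 0 (by decide)) (hne 3 1 (by decide)) h s e1).1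
  have ht' : t' ≠ 0 := by
    intro h0
    rw [h0, zero_smul, add_zero] at e1'
    exact hh' (noncol n (x 0) (x 4) (x 1) (hn 0) (hn 4) (hn 1) (hne 4 0 (by decide))
      (hne 1 0 (by decide)) (hne 4 1 (by decide)) h' s' e1').1
  have hd : s * (t' - h') - s' * (t - h) ≠ 0 := by
    intro h0
    have f1 : h • (x 3 - x 2) = s • u + (t - h) • v := by
      have : x 3 - x 2 = w - v := by rw [hw, hv]; abel
      rw [this, smul_sub, e1, sub_smul]; abel
    have f2 : h' • (x 4 - x 2) = s' • u + (t' - h') • v := by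
      have : x 4 - x 2 = w' - v := by rw [hw', hv]; abel
      rw [this, smul_sub, e1', sub_smul]; abel
    have f3 : (s' * h) • (x 3 - x 2) = (s * h') • (x 4 - x 2) := by
      rw [mul_smul, mul_smul, f1, f2, smul_add, smul_add, smul_smul, smul_smul, smul_smul, smul_smul,
        mul_comm s' s]
      congr 2
      linarith
    have f4 : ((t' - h') * h) • (x 3 - x 2) = ((t - h) * h') • (x 4 - x 2) := by
      rw [mul_smul, mul_smul, f1, f2, smul_add, smul_add, smul_smul, smul_smul, smul_smul, smul_smul,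
        mul_comm (t' - h') (t - h)]
      congr 2
      linarith
    have g1 := noncol n (x 2) (x 3) (x 4) (hn 2) (hn 3) (hn 4) (hne 3 2 (by decide))
      (hne 4 2 (by decide)) (hne 3 4 (by decide)) _ _ f3
    have g2 := noncol n (x 2) (x 3) (x 4) (hn 2) (hn 3) (hn 4) (hne 3 2 (by decide))
      (hne 4 2 (by decide)) (hne 3 4 (by decide)) _ _ f4
    have s0 : s = 0 := by
      rcases mul_eq_zero.1 g1.2 with h5 | h5
      · exact h5
      · exact absurd h5 hh'
    have t0 : t - h = 0 := by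
      rcases mul_eq_zero.1 g2.2 with h5 | h5
      · exact h5
      · exact absurd h5 hh'
    rw [s0, t0, zero_smul, zero_smul, add_zero] at f1
    rcases smul_eq_zero.1 f1 with h5 | h5
    · exact hh h5
    · exact hne 3 2 (by decide) (sub_eq_zero.1 h5)
  -- the two quadratic relations
  rw [x1e, x2e, x3e] at e2
  rw [x1e, x2e, x4e] at e2'
  have R1 := rel_eq (x 0) u v w s t h e1 e2
  have R2 := rel_eq (x 0) u v w' s' t' h' e1' e2'
  set E : ℤ := t * t' * (s * (t' - h') - s' * (t - h)) with hE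
  have hE0 : E ≠ 0 := mul_ne_zero (mul_ne_zero ht ht') hd
  set H : ℤ := s' * (s' - h') * (t * (t - h)) - s * (s - h) * (t' * (t' - h')) with hH
  set F : ℤ := s * (s - h) * (s' * t') - s' * (s' - h') * (s * t) with hF
  have K : ∀ j l, ((2 * E : ℤ) : O) * blk v j l = H * blk u j l := by
    intro j l
    apply key (blk u j) (blk v j) E F H hE0
    · rw [hE, hH]
      have r1 := R1 j
      have r2 := R2 j
      push_cast at r1 r2 ⊢
      linear_combination (t' * (t' - h') : O) * r1 - (t * (t - h) : O) * r2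
    · rw [hE, hF]
      have r1 := R1 j
      have r2 := R2 j
      push_cast at r1 r2 ⊢
      linear_combination (-(s' * t') : O) * r1 + (s * t : O) * r2
  have K2 : (2 * E) • v = H • u := by
    apply blk_inj
    intro j l
    rw [blk_smul, blk_smul]
    exact K j l
  have := noncol n (x 0) (x 2) (x 1) (hn 0) (hn 2) (hn 1) (hne 2 0 (by decide))
    (hne 1 0 (by decide)) (hne 2 1 (by decide)) _ _ K2
  exact hE0 (by linarith [this.1])

open Matrix in
/-- Integer vectors that are linearly dependent over the reals are dependent over the integers. -/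
theorem int_dep {τ : Type*} [Fintype τ] (w : Fin 3 → τ → ℤ) (g : Fin 3 → ℝ) (hg : g ≠ 0)
    (h : ∀ a, ∑ i, g i * (w i a : ℝ) = 0) :
    ∃ c : Fin 3 → ℤ, c ≠ 0 ∧ ∀ a, ∑ i, c i * w i a = 0 := by
  set M : Matrix (Fin 3) (Fin 3) ℤ := Matrix.of fun i j => ∑ a, w i a * w j a with hM
  have h1 : (M.map (Int.cast : ℤ → ℝ)).mulVec g = 0 := by
    funext i
    simp only [Matrix.mulVec, dotProduct, Matrix.map_apply, hM, Matrix.of_apply, Pi.zero_apply]
    push_cast
    simp_rw [Finset.sum_mul]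
    rw [Finset.sum_comm]
    apply Finset.sum_eq_zero
    intro a _
    have := h a
    calc ∑ j, (w i a : ℝ) * w j a * g j = (w i a : ℝ) * ∑ j, g j * w j a := by
          rw [Finset.mul_sum]; exact Finset.sum_congr rfl fun j _ => by ring
      _ = 0 := by rw [this, mul_zero]
  have h2 : (M.map (Int.cast : ℤ → ℝ)).det = 0 := Matrix.exists_mulVec_eq_zero_iff.1 ⟨g, hg, h1⟩
  have h3 : M.det = 0 := by
    have h4 : ((M.det : ℤ) : ℝ) = (M.map (Int.cast : ℤ → ℝ)).det := by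
      exact RingHom.map_det (Int.castRingHom ℝ) M
    rw [h2] at h4
    exact_mod_cast h4
  obtain ⟨c, hc, hc2⟩ := Matrix.exists_mulVec_eq_zero_iff.2 h3
  refine ⟨c, hc, ?_⟩
  have h5 : ∑ a, (∑ i, c i * w i a) * (∑ i, c i * w i a) = 0 := by
    have h6 : c ⬝ᵥ (M.mulVec c) = 0 := by rw [hc2, dotProduct_zero]
    rw [← h6]
    simp only [dotProduct, Matrix.mulVec, hM, Matrix.of_apply]
    simp_rw [Finset.sum_mul_sum, Finset.mul_sum, Finset.sum_mul, Finset.mul_sum]
    rw [Finset.sum_comm]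
    apply Finset.sum_congr rfl
    intro i _
    rw [Finset.sum_comm]
    apply Finset.sum_congr rfl
    intro j _
    apply Finset.sum_congr rfl
    intro a _
    ring
  intro a
  have h7 := (Finset.sum_eq_zero_iff_of_nonneg (fun a _ => mul_self_nonneg _)).1 h5 a
    (Finset.mem_univ _)
  exact mul_self_eq_zero.1 h7

theorem exists_proj (n : ℕ) : ∀ (V : Type) [AddCommGroup V] [Module ℝ V] [FiniteDimensional ℝ V],
    finrank ℝ V = n + 3 → ∀ S : Set (Submodule ℝ V), S.Finite → (∀ U ∈ S, finrank ℝ U ≤ 3) →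
    ∃ L : V →ₗ[ℝ] EuclideanSpace ℝ (Fin 3), ∀ U ∈ S, ∀ x ∈ U, L x = 0 → x = 0 := by
  induction n with
  | zero =>
    intro V _ _ _ hV S _ _
    have e : V ≃ₗ[ℝ] EuclideanSpace ℝ (Fin 3) := LinearEquiv.ofFinrankEq _ _ (by simp [hV])
    exact ⟨e.toLinearMap, fun U _ x _ hx => by simpa using hx⟩
  | succ n ih =>
    intro V _ _ _ hV S hS hdim
    obtain ⟨v, hv⟩ : ∃ v : V, ∀ U ∈ insert ⊥ S, v ∉ U := by
      by_contra hcon
      push Not at hcon
      have hfin : (insert ⊥ S).Finite := hS.insert _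
      have h1 : (⋃ U ∈ hfin.toFinset, (U : Set V)) = Set.univ := by
        ext v
        simp only [Set.mem_iUnion, Set.mem_univ, iff_true]
        obtain ⟨U, hU, hvU⟩ := hcon v
        exact ⟨U, by simpa using hU, hvU⟩
      have h2 := Subspace.top_mem_of_biUnion_eq_univ h1
      have h3 : (⊤ : Submodule ℝ V) ∈ insert ⊥ S := by simpa using h2
      rcases h3 with h3 | h3
      · have := congrArg (fun U : Submodule ℝ V => finrank ℝ U) h3
        simp only [finrank_top, finrank_bot] at this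
        omega
      · have := hdim _ h3
        rw [finrank_top] at this
        omega
    have hv0 : v ≠ 0 := by
      intro h
      exact hv ⊥ (Set.mem_insert _ _) (by simp [h])
    set W := Submodule.span ℝ {v} with hW
    have hq : finrank ℝ (V ⧸ W) = n + 3 := by
      have h1 := Submodule.finrank_quotient_add_finrank W
      have h2 : finrank ℝ W = 1 := finrank_span_singleton hv0
      omega
    obtain ⟨L, hL⟩ := ih (V ⧸ W) hq ((fun U => U.map W.mkQ) '' S) (hS.image _) (by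
      rintro _ ⟨U, hU, rfl⟩
      exact (Submodule.finrank_map_le _ _).trans (hdim U hU))
    refine ⟨L.comp W.mkQ, ?_⟩
    intro U hU x hx hLx
    have h1 := hL _ ⟨U, hU, rfl⟩ (W.mkQ x) (Submodule.mem_map_of_mem hx) hLx
    have h2 : x ∈ W := by simpa using h1
    obtain ⟨c, rfl⟩ := Submodule.mem_span_singleton.1 h2
    by_cases hc : c = 0
    · rw [hc, zero_smul]
    · exfalso
      apply hv U (Set.mem_insert_of_mem _ hU)
      have := U.smul_mem c⁻¹ hx
      rwa [smul_smul, inv_mul_cancel₀ hc, one_smul] at this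

/-- All four integer coordinates of `X` are at most `m` in absolute value. -/
def Bd (X : O) (m : ℤ) : Prop := |X.re.re| ≤ m ∧ |X.re.im| ≤ m ∧ |X.im.re| ≤ m ∧ |X.im.im| ≤ m

theorem Bd_add {X Y : O} {m n : ℤ} (hX : Bd X m) (hY : Bd Y n) : Bd (X + Y) (m + n) := by
  obtain ⟨a1, a2, a3, a4⟩ := hX
  obtain ⟨b1, b2, b3, b4⟩ := hY
  exact ⟨(abs_add_le _ _).trans (add_le_add a1 b1), (abs_add_le _ _).trans (add_le_add a2 b2),
    (abs_add_le _ _).trans (add_le_add a3 b3), (abs_add_le _ _).trans (add_le_add a4 b4)⟩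

theorem Bd_neg {X : O} {m : ℤ} (hX : Bd X m) : Bd (-X) m := by
  obtain ⟨a1, a2, a3, a4⟩ := hX
  refine ⟨?_, ?_, ?_, ?_⟩
  · rw [QuadraticAlgebra.re_neg, QuadraticAlgebra.re_neg, abs_neg]; exact a1
  · rw [QuadraticAlgebra.re_neg, QuadraticAlgebra.im_neg, abs_neg]; exact a2
  · rw [QuadraticAlgebra.im_neg, QuadraticAlgebra.re_neg, abs_neg]; exact a3
  · rw [QuadraticAlgebra.im_neg, QuadraticAlgebra.im_neg, abs_neg]; exact a4

theorem abs_mul_bd {a b m n : ℤ} (ha : |a| ≤ m) (hb : |b| ≤ n) : |a * b| ≤ m * n := by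
  rw [abs_mul]
  exact mul_le_mul ha hb (abs_nonneg _) ((abs_nonneg _).trans ha)

theorem Bd_mul {X Y : O} {m n : ℤ} (hX : Bd X m) (hY : Bd Y n) : Bd (X * Y) (8 * (m * n)) := by
  obtain ⟨a1, a2, a3, a4⟩ := hX
  obtain ⟨b1, b2, b3, b4⟩ := hY
  have c11 := abs_le.1 (abs_mul_bd a1 b1)
  have c12 := abs_le.1 (abs_mul_bd a1 b2)
  have c13 := abs_le.1 (abs_mul_bd a1 b3)
  have c14 := abs_le.1 (abs_mul_bd a1 b4)
  have c21 := abs_le.1 (abs_mul_bd a2 b1)
  have c22 := abs_le.1 (abs_mul_bd a2 b2)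
  have c23 := abs_le.1 (abs_mul_bd a2 b3)
  have c24 := abs_le.1 (abs_mul_bd a2 b4)
  have c31 := abs_le.1 (abs_mul_bd a3 b1)
  have c32 := abs_le.1 (abs_mul_bd a3 b2)
  have c33 := abs_le.1 (abs_mul_bd a3 b3)
  have c34 := abs_le.1 (abs_mul_bd a3 b4)
  have c41 := abs_le.1 (abs_mul_bd a4 b1)
  have c42 := abs_le.1 (abs_mul_bd a4 b2)
  have c43 := abs_le.1 (abs_mul_bd a4 b3)
  have c44 := abs_le.1 (abs_mul_bd a4 b4)
  refine ⟨?_, ?_, ?_, ?_⟩ <;>
  simp only [QuadraticAlgebra.re_mul, QuadraticAlgebra.im_mul, QuadraticAlgebra.re_add,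
    QuadraticAlgebra.im_add, QuadraticAlgebra.re_ofNat, QuadraticAlgebra.im_ofNat,
    QuadraticAlgebra.re_zero, QuadraticAlgebra.im_zero] <;>
  rw [abs_le] <;> constructor <;> nlinarith

theorem Bd_nu : Bd nu 1 := by
  refine ⟨?_, ?_, ?_, ?_⟩ <;> simp [nu]

theorem Bd_pii : Bd pii 1 := by
  refine ⟨?_, ?_, ?_, ?_⟩ <;> simp [pii, QuadraticAlgebra.re_one, QuadraticAlgebra.im_one]

theorem Bd_Q {x : Fin 4 → O} {N : ℤ} (hx : ∀ l, Bd (x l) N) : Bd (Q x) (648 * N ^ 2) := by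
  have hs : ∀ l, Bd (x l ^ 2) (8 * (N * N)) := fun l => by
    rw [pow_two]; exact Bd_mul (hx l) (hx l)
  have h := Bd_add (Bd_add (Bd_add (hs 0) (Bd_neg (Bd_mul Bd_nu (hs 1))))
    (Bd_neg (Bd_mul Bd_pii (hs 2)))) (Bd_mul (Bd_mul Bd_pii Bd_nu) (hs 3))
  have e1 : Q x = x 0 ^ 2 + -(nu * x 1 ^ 2) + -(pii * x 2 ^ 2) + pii * nu * x 3 ^ 2 := by
    rw [Q]; ring
  have e2 : 648 * N ^ 2 = 8 * (N * N) + 8 * (1 * (8 * (N * N))) + 8 * (1 * (8 * (N * N))) +
      8 * (8 * (1 * 1) * (8 * (N * N))) := by ring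
  rw [e1, e2]
  exact h

theorem Bd_comp {X : O} {m : ℤ} (hX : Bd X m) (i : Fin 4) : |comp X i| ≤ m := by
  obtain ⟨a1, a2, a3, a4⟩ := hX
  fin_cases i
  · exact a1
  · exact a2
  · exact a3
  · exact a4

theorem q_bound {k : ℕ} {N : ℤ} (x : I k → ℤ) (h : ∀ a, |x a| ≤ N)
    (b : Fin k × Fin 4) : |q x b| ≤ 648 * N ^ 2 := by
  apply Bd_comp
  apply Bd_Q
  intro l
  exact ⟨h _, h _, h _, h _⟩

theorem no_five {k : ℕ} (n : ℤ) (x : Fin 5 → I k → ℤ) (hinj : Function.Injective x)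
    (hn : ∀ i, x i ⬝ᵥ x i = n)
    (h : ∀ i : Fin 5, ∃ g : Fin 3 → ℝ, g ≠ 0 ∧ ∀ a, g 0 * ((pt (x 1) a : ℝ) - pt (x 0) a) +
      g 1 * ((pt (x 2) a : ℝ) - pt (x 0) a) + g 2 * ((pt (x i) a : ℝ) - pt (x 0) a) = 0) : False := by
  have key2 : ∀ i : Fin 5, ∃ c : Fin 3 → ℤ, c ≠ 0 ∧ c 0 • (pt (x 1) - pt (x 0)) +
      c 1 • (pt (x 2) - pt (x 0)) + c 2 • (pt (x i) - pt (x 0)) = 0 := by
    intro i
    obtain ⟨g, hg, hg2⟩ := h i
    obtain ⟨c, hc, hc2⟩ := int_dep ![pt (x 1) - pt (x 0), pt (x 2) - pt (x 0), pt (x i) - pt (x 0)]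
      g hg (by
        intro a
        rw [Fin.sum_univ_three, ← hg2 a]
        simp)
    refine ⟨c, hc, ?_⟩
    funext a
    have := hc2 a
    rw [Fin.sum_univ_three] at this
    simpa using this
  exact core n x hinj hn (key2 3) (key2 4)


theorem five_of_encard {α : Type*} (s : Set α) (h : ¬ s.encard ≤ 4) :
    ∃ y : Fin 5 → α, Function.Injective y ∧ ∀ i, y i ∈ s := by
  rw [not_le] at h
  have h5 : (5 : ℕ∞) ≤ s.encard := by
    have := Order.add_one_le_of_lt h
    norm_num at this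
    exact this
  obtain ⟨t, ht, htc⟩ := Set.exists_subset_encard_eq h5
  have htf : t.Finite := Set.finite_of_encard_eq_coe (k := 5) (by simpa using htc)
  have htn : t.ncard = 5 := by
    rw [Set.ncard, htc]; rfl
  have htn2 : htf.toFinset.card = 5 := by rw [← Set.ncard_eq_toFinset_card t htf, htn]
  set e := htf.toFinset.equivFinOfCardEq htn2 with he
  refine ⟨fun i => (e.symm i : α), ?_, ?_⟩
  · intro i j hij
    exact e.symm.injective (Subtype.ext hij)
  · intro i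
    exact ht (htf.mem_toFinset.1 (e.symm i).2)

/-- No five distinct points of the set `A` of integer points lie on a common 2-plane of
`d`-dimensional real space. -/
def NoFive {d : ℕ} (A : Set (Fin d → ℤ)) : Prop :=
  ∀ P : AffineSubspace ℝ (Fin d → ℝ), finrank ℝ P.direction = 2 →
    {a | a ∈ A ∧ (fun i => (a i : ℝ)) ∈ P}.encard ≤ 4

/-- The extremal function of the problem: the largest size of a set `A` in `{1, ..., N}^d` with no
five distinct points on a common 2-plane. -/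
noncomputable def r (d N : ℕ) : ℕ :=
  sSup {n | ∃ A : Finset (Fin d → ℤ), (∀ a ∈ A, ∀ i, 1 ≤ a i ∧ a i ≤ N) ∧
    NoFive (A : Set (Fin d → ℤ)) ∧ A.card = n}

theorem r_bdd (d N : ℕ) : BddAbove {n | ∃ A : Finset (Fin d → ℤ), (∀ a ∈ A, ∀ i, 1 ≤ a i ∧ a i ≤ N) ∧
    NoFive (A : Set (Fin d → ℤ)) ∧ A.card = n} := by
  classical
  refine ⟨(Fintype.piFinset fun _ : Fin d => Finset.Icc (1 : ℤ) N).card, ?_⟩
  rintro n ⟨A, hA, _, rfl⟩
  apply Finset.card_le_card
  intro a ha
  rw [Fintype.mem_piFinset]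
  intro i
  rw [Finset.mem_Icc]
  exact hA a ha i

theorem le_r {d N : ℕ} (A : Finset (Fin d → ℤ)) (h1 : ∀ a ∈ A, ∀ i, 1 ≤ a i ∧ a i ≤ N)
    (h2 : NoFive (A : Set (Fin d → ℤ))) : A.card ≤ r d N :=
  le_csSup (r_bdd d N) ⟨A, h1, h2, rfl⟩

theorem one_le_r (d N : ℕ) (hN : 1 ≤ N) : 1 ≤ r d N := by
  have := le_r (N := N) ({fun _ => 1} : Finset (Fin d → ℤ)) (by
    intro a ha i
    rw [Finset.mem_singleton.1 ha]
    exact ⟨le_refl _, by simpa using (by exact_mod_cast hN : (1:ℤ) ≤ N)⟩) (by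
    intro P _
    refine (Set.encard_le_encard (t := {fun _ => 1}) ?_).trans ?_
    · rintro a ⟨ha, _⟩
      simpa using ha
    · rw [Set.encard_singleton]; norm_num)
  simpa using this

/-- Extension of a vector by zero. -/
noncomputable def ext0 {m k : ℕ} (f : Fin m → I k) (x : Fin m → ℤ) : I k → ℤ :=
  Function.extend f x 0

theorem ext0_dot {m k : ℕ} (f : Fin m → I k) (hf : Function.Injective f) (x : Fin m → ℤ) :
    ext0 f x ⬝ᵥ ext0 f x = x ⬝ᵥ x := by
  classical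
  have h1 : ∀ a, a ∉ Finset.univ.image f → ext0 f x a * ext0 f x a = 0 := by
    intro a ha
    have : ext0 f x a = 0 := by
      rw [ext0, Function.extend_apply']
      · rfl
      · rintro ⟨b, hb⟩
        exact ha (by rw [← hb]; exact Finset.mem_image_of_mem _ (Finset.mem_univ _))
    rw [this, mul_zero]
  calc ext0 f x ⬝ᵥ ext0 f x = ∑ a, ext0 f x a * ext0 f x a := rfl
    _ = ∑ a ∈ Finset.univ.image f, ext0 f x a * ext0 f x a :=
        (Finset.sum_subset (Finset.subset_univ _) fun a _ ha => h1 a ha).symm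
    _ = ∑ b, ext0 f x (f b) * ext0 f x (f b) := Finset.sum_image fun a _ b _ h => hf h
    _ = ∑ b, x b * x b := Finset.sum_congr rfl fun b _ => by rw [ext0, hf.extend_apply]
    _ = x ⬝ᵥ x := rfl

theorem ext0_inj {m k : ℕ} (f : Fin m → I k) (hf : Function.Injective f) {x y : Fin m → ℤ}
    (h : ext0 f x = ext0 f y) : x = y := by
  funext b
  have := congrFun h (f b)
  rwa [ext0, ext0, hf.extend_apply, hf.extend_apply] at this

/-- The point of the large grid attached to `x`: its coordinates, the base `M` digits of the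
shifted values of the forms, and constants. -/
noncomputable def F {m k t : ℕ} (f : Fin m → I k) (N : ℕ) (x : Fin m → ℤ) :
    (Fin m ⊕ ((Fin k × Fin 4) ⊕ (Fin k × Fin 4))) ⊕ Fin t → ℤ :=
  Sum.elim (Sum.elim x (Sum.elim
    (fun b => (q (ext0 f x) b + 648 * N ^ 2) % (36 * N + 1) + 1)
    (fun b => (q (ext0 f x) b + 648 * N ^ 2) / (36 * N + 1) + 1))) (fun _ => 1)

theorem lower {m k t : ℕ} (hm : m ≤ 16 * k) (N n : ℕ) (hN : 1 ≤ N)
    (h : (m * N ^ 2 + 1) * n ≤ N ^ m) : n ≤ r (m + 8 * k + t) (36 * N + 1) := by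
  classical
  obtain ⟨f⟩ : Nonempty (Fin m ↪ I k) := by
    apply Function.Embedding.nonempty_of_card_le
    simp only [Fintype.card_prod, Fintype.card_fin]
    omega
  set S : Finset (Fin m → ℤ) := Fintype.piFinset fun _ => Finset.Icc (1 : ℤ) N with hS
  have hScard : S.card = N ^ m := by
    rw [hS, Fintype.card_piFinset]
    simp only [Int.card_Icc, Finset.prod_const, Finset.card_univ, Fintype.card_fin]
    have : ((N : ℤ) + 1 - 1).toNat = N := by simp
    rw [this]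
  have hmem : ∀ x ∈ S, ∀ a, 1 ≤ x a ∧ x a ≤ N := by
    intro x hx a
    have := Fintype.mem_piFinset.1 hx a
    simpa using this
  set T : Finset ℤ := Finset.Icc 0 (m * N ^ 2) with hT
  have hmaps : ∀ x ∈ S, x ⬝ᵥ x ∈ T := by
    intro x hx
    rw [hT, Finset.mem_Icc]
    constructor
    · exact Finset.sum_nonneg fun a _ => mul_self_nonneg _
    · calc x ⬝ᵥ x = ∑ a, x a * x a := rfl
        _ ≤ ∑ _a : Fin m, ((N : ℤ) * N) := by
            apply Finset.sum_le_sum
            intro a _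
            obtain ⟨h1, h2⟩ := hmem x hx a
            nlinarith
        _ = m * N ^ 2 := by
            simp only [Finset.sum_const, Finset.card_univ, Fintype.card_fin, nsmul_eq_mul]
            ring
  have hTcard : T.card = m * N ^ 2 + 1 := by
    rw [hT, Int.card_Icc]
    have : ((m : ℤ) * N ^ 2 + 1 - 0) = ((m * N ^ 2 + 1 : ℕ) : ℤ) := by push_cast; ring
    rw [this, Int.toNat_natCast]
  have hne : T.Nonempty := Finset.card_pos.1 (by rw [hTcard]; omega)
  obtain ⟨c, _, hc⟩ := Finset.exists_le_card_fiber_of_mul_le_card_of_maps_to (n := n) hmaps hne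
    (by rw [hTcard, hScard]; exact h)
  set X := S.filter (fun x => x ⬝ᵥ x = c) with hX
  have hXs : ∀ x ∈ X, x ⬝ᵥ x = c := fun x hx => (Finset.mem_filter.1 hx).2
  have hXb : ∀ x ∈ X, ∀ a, 1 ≤ x a ∧ x a ≤ N := fun x hx => hmem x (Finset.mem_filter.1 hx).1
  obtain ⟨e⟩ : Nonempty (Fin (m + 8 * k + t) ≃
      (Fin m ⊕ ((Fin k × Fin 4) ⊕ (Fin k × Fin 4))) ⊕ Fin t) := by
    apply Fintype.card_eq.1
    simp only [Fintype.card_sum, Fintype.card_prod, Fintype.card_fin]
    ring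
  set Φ : (Fin m → ℤ) → (Fin (m + 8 * k + t) → ℤ) := fun x i => F f N x (e i) with hΦ
  have hΦx : ∀ x a, Φ x (e.symm (Sum.inl (Sum.inl a))) = x a := by
    intro x a
    simp [hΦ, F]
  have hΦinj : Function.Injective Φ := by
    intro x y hxy
    funext a
    rw [← hΦx x a, ← hΦx y a, hxy]
  have hM : (0 : ℤ) < 36 * N + 1 := by positivity
  have hqb : ∀ x ∈ X, ∀ b, 0 ≤ q (ext0 f x) b + 648 * N ^ 2 ∧
      q (ext0 f x) b + 648 * N ^ 2 ≤ 1296 * N ^ 2 := by
    intro x hx b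
    have h1 := q_bound (N := (N : ℤ)) (ext0 f x) (by
      intro a
      by_cases ha : ∃ i, f i = a
      · obtain ⟨i, rfl⟩ := ha
        rw [ext0, f.injective.extend_apply, abs_le]
        obtain ⟨h1, h2⟩ := hXb x hx i
        constructor <;> linarith
      · rw [ext0, Function.extend_apply' _ _ _ ha]
        simp) b
    rw [abs_le] at h1
    constructor <;> linarith [h1.1, h1.2]
  have hqF : ∀ x b, q (ext0 f x) b = (Φ x (e.symm (Sum.inl (Sum.inr (Sum.inl b)))) - 1) +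
      (36 * N + 1) * (Φ x (e.symm (Sum.inl (Sum.inr (Sum.inr b)))) - 1) - 648 * N ^ 2 := by
    intro x b
    simp only [hΦ, F, Equiv.apply_symm_apply, Sum.elim_inl, Sum.elim_inr]
    have := Int.emod_add_mul_ediv (q (ext0 f x) b + 648 * (N : ℤ) ^ 2) (36 * N + 1)
    linarith
  have hcard : (X.image Φ).card = X.card := Finset.card_image_of_injective _ hΦinj
  refine hc.trans ?_
  rw [← hcard]
  apply le_r
  · intro y hy i
    obtain ⟨x, hx, rfl⟩ := Finset.mem_image.1 hy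
    simp only [hΦ]
    push_cast
    rcases e i with (a | b | b) | z
    · obtain ⟨h1, h2⟩ := hXb x hx a
      simp only [F, Sum.elim_inl]
      constructor <;> linarith
    · simp only [F, Sum.elim_inl, Sum.elim_inr]
      have h1 := Int.emod_nonneg (q (ext0 f x) b + 648 * (N : ℤ) ^ 2) hM.ne'
      have h2 := Int.emod_lt_of_pos (q (ext0 f x) b + 648 * (N : ℤ) ^ 2) hM
      constructor <;> linarith
    · simp only [F, Sum.elim_inl, Sum.elim_inr]
      obtain ⟨h1, h2⟩ := hqb x hx b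
      have h3 := Int.ediv_nonneg h1 hM.le
      have h4 : (q (ext0 f x) b + 648 * (N : ℤ) ^ 2) / (36 * N + 1) < 36 * N + 1 := by
        apply Int.ediv_lt_of_lt_mul hM
        nlinarith
      constructor <;> linarith
    · simp only [F, Sum.elim_inr]
      constructor
      · exact le_refl _
      · linarith
  · intro P hP
    by_contra hcon
    obtain ⟨y, hyinj, hy⟩ := five_of_encard _ hcon
    have hy2 : ∀ i : Fin 5, ∃ x ∈ X, Φ x = y i := by
      intro i
      have := (hy i).1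
      rw [Finset.mem_coe, Finset.mem_image] at this
      exact this
    choose x hx hxy using hy2
    have hxinj : Function.Injective x := by
      intro i j hij
      apply hyinj
      rw [← hxy, ← hxy, hij]
    apply no_five c (fun i => ext0 f (x i)) (fun i j hij => hxinj (ext0_inj f f.injective hij))
      (fun i => by rw [ext0_dot f f.injective, hXs _ (hx i)])
    intro i
    have hd : ∀ j : Fin 5, (fun a => (y j a : ℝ)) - (fun a => (y 0 a : ℝ)) ∈ P.direction := fun j =>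
      AffineSubspace.vsub_mem_direction (hy j).2 (hy 0).2
    have hdep : ¬ LinearIndependent ℝ
        (![⟨_, hd 1⟩, ⟨_, hd 2⟩, ⟨_, hd i⟩] : Fin 3 → P.direction) := by
      intro hli
      have := hli.fintype_card_le_finrank
      rw [hP] at this
      simp at this
    rw [Fintype.not_linearIndependent_iff] at hdep
    obtain ⟨g, hg, j, hj⟩ := hdep
    refine ⟨g, fun h => hj (congrFun h j), ?_⟩
    rw [Fin.sum_univ_three] at hg
    have hg2 := congrArg (Subtype.val) hg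
    simp only [Matrix.cons_val_zero, Matrix.cons_val_one, Matrix.cons_val_two, Matrix.head_cons,
      Matrix.tail_cons, Submodule.coe_add, Submodule.coe_smul, Submodule.coe_zero] at hg2
    have hg3 : ∀ s, g 0 * ((Φ (x 1) s : ℝ) - Φ (x 0) s) + g 1 * ((Φ (x 2) s : ℝ) - Φ (x 0) s) +
        g 2 * ((Φ (x i) s : ℝ) - Φ (x 0) s) = 0 := by
      intro s
      rw [hxy, hxy, hxy, hxy]
      have := congrFun hg2 s
      simpa using this
    rintro (a | b)
    · simp only [pt, Sum.elim_inl]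
      by_cases ha : ∃ i, f i = a
      · obtain ⟨l, rfl⟩ := ha
        have := hg3 (e.symm (Sum.inl (Sum.inl l)))
        rw [hΦx, hΦx, hΦx, hΦx] at this
        simp only [ext0, f.injective.extend_apply]
        exact this
      · simp only [ext0, Function.extend_apply' _ _ _ ha]
        simp
    · simp only [pt, Sum.elim_inr]
      rw [hqF (x 0) b, hqF (x 1) b, hqF (x 2) b, hqF (x i) b]
      have h1 := hg3 (e.symm (Sum.inl (Sum.inr (Sum.inl b))))
      have h2 := hg3 (e.symm (Sum.inl (Sum.inr (Sum.inr b))))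
      push_cast
      linear_combination h1 + (36 * (N : ℝ) + 1) * h2


theorem r_mono (d : ℕ) {N N' : ℕ} (h : N ≤ N') : r d N ≤ r d N' := by
  apply csSup_le_csSup (r_bdd d N') ?_ ?_
  · refine ⟨0, ∅, by simp, ?_, by simp⟩
    intro P _
    simp
  · rintro n ⟨A, hA, hA2, hA3⟩
    refine ⟨A, ?_, hA2, hA3⟩
    intro a ha i
    refine ⟨(hA a ha i).1, (hA a ha i).2.trans (by exact_mod_cast h)⟩

theorem lower2 {m k t : ℕ} (hm2 : 2 ≤ m) (hm : m ≤ 16 * k) (N' : ℕ) (hN' : 1 ≤ N') :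
    ((N' : ℝ) / 72) ^ (m - 2) / (2 * (m + 1)) ≤ (r (m + 8 * k + t) N' : ℝ) := by
  have h1 : (1 : ℝ) ≤ r (m + 8 * k + t) N' := by exact_mod_cast one_le_r _ N' hN'
  have hm0 : (0 : ℝ) ≤ m := by positivity
  by_cases h36 : N' ≤ 36
  · refine le_trans ?_ h1
    rw [div_le_one (by positivity)]
    have : ((N' : ℝ) / 72) ^ (m - 2) ≤ 1 := by
      apply pow_le_one₀ (by positivity)
      rw [div_le_one (by norm_num)]
      have : (N' : ℝ) ≤ 36 := by exact_mod_cast h36
      linarith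
    linarith
  · push Not at h36
    set N := (N' - 1) / 36 with hN
    have hN1 : 1 ≤ N := by omega
    have hN2 : 36 * N + 1 ≤ N' := by omega
    have hN3 : N' ≤ 72 * N := by omega
    set n := N ^ m / (m * N ^ 2 + 1) with hn
    have hl := lower (t := t) hm N n hN1 (Nat.mul_div_le _ _)
    have hl2 : n ≤ r (m + 8 * k + t) N' := hl.trans (r_mono _ hN2)
    have hl3 : N ^ m < (m * N ^ 2 + 1) * (n + 1) := by
      have := Nat.lt_mul_div_succ (N ^ m) (b := m * N ^ 2 + 1) (by omega)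
      exact this
    have hl4 : N ^ (m - 2) * N ^ 2 < ((m + 1) * (n + 1)) * N ^ 2 := by
      rw [← pow_add, Nat.sub_add_cancel hm2]
      refine hl3.trans_le ?_
      have : 1 ≤ N ^ 2 := Nat.one_le_pow _ _ hN1
      nlinarith [Nat.zero_le n, Nat.zero_le m, Nat.mul_le_mul_left (n + 1) this]
    have hl5 : N ^ (m - 2) < (m + 1) * (n + 1) := lt_of_mul_lt_mul_right hl4 (Nat.zero_le _)
    have hl6 : (N : ℝ) ^ (m - 2) < (m + 1) * (n + 1) := by exact_mod_cast hl5
    have hl7 : ((N' : ℝ) / 72) ^ (m - 2) ≤ (N : ℝ) ^ (m - 2) := by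
      apply pow_le_pow_left₀ (by positivity)
      rw [div_le_iff₀ (by norm_num)]
      have : (N' : ℝ) ≤ 72 * N := by exact_mod_cast hN3
      linarith
    have hl8 : (n : ℝ) ≤ r (m + 8 * k + t) N' := by exact_mod_cast hl2
    rw [div_le_iff₀ (by positivity)]
    nlinarith [mul_le_mul_of_nonneg_left hl8 (by positivity : (0:ℝ) ≤ m + 1),
      mul_le_mul_of_nonneg_left h1 (by positivity : (0:ℝ) ≤ m + 1)]

/-- The exponent `d - 2 - 8 ⌈d/24⌉`, for `d ≥ 11`. -/
theorem lower3 {d : ℕ} (hd : 11 ≤ d) :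
    ∃ c : ℝ, 0 < c ∧ ∀ N : ℕ, 1 ≤ N → c * (N : ℝ) ^ (d - 8 * ((d + 23) / 24) - 2) ≤ r d N := by
  set k := (d + 23) / 24 with hk
  have hm2 : 2 ≤ d - 8 * k := by omega
  have hm : d - 8 * k ≤ 16 * k := by omega
  refine ⟨(1 / 72) ^ (d - 8 * k - 2) / (2 * ((d - 8 * k : ℕ) + 1)), by positivity, ?_⟩
  intro N hN
  have h := lower2 (t := 0) hm2 hm N hN
  have hd2 : d - 8 * k + 8 * k + 0 = d := by omega
  rw [hd2] at h
  refine le_trans (le_of_eq ?_) h
  rw [div_pow, div_pow, one_pow]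
  ring

/-- For every `d` one has `r_d(N) ≥ c_d N ^ (2d/3 - 10)`; and for `d ≤ 288` one has
`r_d(N) ≥ N ^ (d - 100)` for all large `N`. -/
theorem result :
    (∀ d : ℕ, ∃ c : ℝ, 0 < c ∧ ∀ N : ℕ, 1 ≤ N → c * (N : ℝ) ^ (2 * (d : ℝ) / 3 - 10) ≤ r d N) ∧
    (∀ d : ℕ, d ≤ 288 → ∃ N₀ : ℕ, ∀ N : ℕ, N₀ ≤ N → (N : ℝ) ^ ((d : ℝ) - 100) ≤ r d N) := by
  constructor
  · intro d
    by_cases hd : 11 ≤ d
    · obtain ⟨c, hc, h⟩ := lower3 hd
      refine ⟨c, hc, fun N hN => ?_⟩
      refine le_trans (mul_le_mul_of_nonneg_left ?_ hc.le) (h N hN)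
      rw [← Real.rpow_natCast]
      apply Real.rpow_le_rpow_of_exponent_le (by exact_mod_cast hN)
      have h1 : d - 8 * ((d + 23) / 24) - 2 + 10 + 8 * ((d + 23) / 24) = d + 8 := by omega
      have h2 : 24 * ((d + 23) / 24) ≤ d + 23 := by omega
      have h1' : ((d - 8 * ((d + 23) / 24) - 2 : ℕ) : ℝ) + 10 + 8 * (((d + 23) / 24 : ℕ) : ℝ) = d + 8 := by
        exact_mod_cast h1
      have h2' : 24 * (((d + 23) / 24 : ℕ) : ℝ) ≤ d + 23 := by exact_mod_cast h2
      linarith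
    · refine ⟨1, one_pos, fun N hN => ?_⟩
      rw [one_mul]
      have h1 : (1 : ℝ) ≤ r d N := by exact_mod_cast one_le_r _ N hN
      refine le_trans ?_ h1
      apply Real.rpow_le_one_of_one_le_of_nonpos (by exact_mod_cast hN)
      have : (d : ℝ) ≤ 10 := by exact_mod_cast (by omega : d ≤ 10)
      linarith
  · intro d hd
    by_cases hd1 : 101 ≤ d
    · obtain ⟨c, hc, h⟩ := lower3 (d := d) (by omega)
      obtain ⟨N₀, hN₀⟩ := exists_nat_ge (1 / c)
      refine ⟨N₀ + 1, fun N hN => ?_⟩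
      have hN1 : 1 ≤ N := by omega
      have hN1' : (1 : ℝ) ≤ N := by exact_mod_cast hN1
      have hN2 : 1 / c ≤ N := hN₀.trans (by exact_mod_cast (by omega : N₀ ≤ N))
      have hN3 : 1 ≤ c * N := by
        rw [div_le_iff₀ hc] at hN2
        linarith
      refine le_trans ?_ (h N hN1)
      have h1 : d - 8 * ((d + 23) / 24) - 2 = (d - 100) + 1 + (97 - 8 * ((d + 23) / 24)) ∨
          d - 8 * ((d + 23) / 24) - 2 = (d - 100) + 1 + (97 - 8 * ((d + 23) / 24)) := by
        left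
        omega
      have h2 : ((d : ℝ) - 100) = ((d - 100 : ℕ) : ℝ) := by
        rw [Nat.cast_sub (by omega)]
        norm_num
      rw [h2, Real.rpow_natCast, h1.elim id id, pow_add, pow_add, pow_one]
      have h3 : (1 : ℝ) ≤ (N : ℝ) ^ (97 - 8 * ((d + 23) / 24)) := one_le_pow₀ hN1'
      have h4 : (0 : ℝ) < (N : ℝ) ^ (d - 100) := by positivity
      calc (N : ℝ) ^ (d - 100) = (N : ℝ) ^ (d - 100) * 1 * 1 := by ring
        _ ≤ (N : ℝ) ^ (d - 100) * (c * N) * (N : ℝ) ^ (97 - 8 * ((d + 23) / 24)) := by gcongr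
        _ = _ := by ring
    · refine ⟨1, fun N hN => ?_⟩
      have h1 : (1 : ℝ) ≤ r d N := by exact_mod_cast one_le_r _ N hN
      refine le_trans ?_ h1
      apply Real.rpow_le_one_of_one_le_of_nonpos (by exact_mod_cast hN)
      have : (d : ℝ) ≤ 100 := by exact_mod_cast (by omega : d ≤ 100)
      linarith

end Pool.Agent.Results.MP_45c2e2_co.TwoThirds
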